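import Pool.Agent.V11258.BG.Main

namespace Pool.Agent.Results.MP_cc0654_lc.BorelGammaGroup

open Cardinal Filter

/-- `𝒰` is an `ω`-cover of `X`. -/
def IsOmegaCover {X : Type} (𝒰 : Set (Set X)) : Prop :=
  Set.univ ∉ 𝒰 ∧ ∀ F : Finset X, ∃ U ∈ 𝒰, (F : Set X) ⊆ U

/-- `𝒰` is a `γ`-cover of `X`. -/
def IsGammaCover {X : Type} (𝒰 : Set (Set X)) : Prop :=
  𝒰.Infinite ∧ ∀ x, {U | U ∈ 𝒰 ∧ x ∉ U}.Finite

/-- The countable Borel `ω`-covers. -/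
def BOmega (X : Type) [TopologicalSpace X] : Set (Set (Set X)) :=
  {𝒰 | 𝒰.Countable ∧ (∀ U ∈ 𝒰, @MeasurableSet X (borel X) U) ∧ IsOmegaCover 𝒰}

/-- The countable Borel `γ`-covers. -/
def BGamma (X : Type) [TopologicalSpace X] : Set (Set (Set X)) :=
  {𝒰 | 𝒰.Countable ∧ (∀ U ∈ 𝒰, @MeasurableSet X (borel X) U) ∧ IsGammaCover 𝒰}

/-- The open `ω`-covers. -/
def Omega (X : Type) [TopologicalSpace X] : Set (Set (Set X)) :=
  {𝒰 | (∀ U ∈ 𝒰, IsOpen U) ∧ IsOmegaCover 𝒰}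

/-- The open `γ`-covers. -/
def Gamma (X : Type) [TopologicalSpace X] : Set (Set (Set X)) :=
  {𝒰 | (∀ U ∈ 𝒰, IsOpen U) ∧ IsGammaCover 𝒰}

/-- The selection principle `S₁(𝒜, ℬ)`. -/
def S1 {X : Type} (𝒜 ℬ : Set (Set (Set X))) : Prop :=
  ∀ 𝒰 : ℕ → Set (Set X), (∀ n, 𝒰 n ∈ 𝒜) →
    ∃ U : ℕ → Set X, (∀ n, U n ∈ 𝒰 n) ∧ Set.range U ∈ ℬ

/-- `γ`-convergence of a sequence of proper subsets gives a `γ`-cover. -/
theorem gamma_of_eventually {X : Type} (U : ℕ → Set X) (h1 : ∀ n, U n ≠ Set.univ)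
    (h2 : ∀ x, ∀ᶠ n in atTop, x ∈ U n) : IsGammaCover (Set.range U) := by
  have key : ∀ x, {V | V ∈ Set.range U ∧ x ∉ V}.Finite := by
    intro x
    obtain ⟨N, hN⟩ := eventually_atTop.mp (h2 x)
    refine ((Finset.range N).image U).finite_toSet.subset ?_
    rintro _ ⟨⟨n, rfl⟩, hn⟩
    rw [Finset.mem_coe, Finset.mem_image]
    refine ⟨n, ?_, rfl⟩
    rw [Finset.mem_range]
    by_contra hcon
    exact hn (hN n (not_lt.mp hcon))
  refine ⟨?_, key⟩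
  intro hfin
  obtain ⟨V, _, hV⟩ : ∃ V ∈ Set.range U, {n | U n = V}.Infinite := by
    by_contra hcon
    push Not at hcon
    have : (⋃ V ∈ Set.range U, {n | U n = V}).Finite := hfin.biUnion hcon
    have h3 : (⋃ V ∈ Set.range U, {n | U n = V}) = Set.univ := by
      ext n; simp
    rw [h3] at this
    exact Set.infinite_univ this
  obtain ⟨n0, hn0⟩ := hV.nonempty
  have hVne : V ≠ Set.univ := hn0 ▸ h1 n0
  obtain ⟨x, hx⟩ := (Set.ne_univ_iff_exists_notMem V).mp hVne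
  obtain ⟨N, hN⟩ := eventually_atTop.mp (h2 x)
  obtain ⟨n, hn, hnN⟩ := hV.exists_gt N
  have := hN n hnN.le
  rw [hn] at this
  exact hx this

/-- Open `ω`-covers of second countable spaces have countable `ω`-subcovers. -/
theorem countable_subcover {X : Type} [TopologicalSpace X] [SecondCountableTopology X]
    (𝒰 : Set (Set X)) (ho : ∀ U ∈ 𝒰, IsOpen U) (hω : ∀ F : Finset X, ∃ U ∈ 𝒰, (F : Set X) ⊆ U) :
    ∃ 𝒱 ⊆ 𝒰, 𝒱.Countable ∧ ∀ F : Finset X, ∃ U ∈ 𝒱, (F : Set X) ⊆ U := by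
  classical
  let B := TopologicalSpace.countableBasis X
  have hB := TopologicalSpace.isBasis_countableBasis X
  let T : Set (Set (Set X)) := {t | t.Finite ∧ t ⊆ B}
  have hT : T.Countable := Set.countable_ofPred_finite_subset (TopologicalSpace.countable_countableBasis X)
  have : ∀ t : Set (Set X), ∃ V, (∃ U ∈ 𝒰, ⋃₀ t ⊆ U) → V ∈ 𝒰 ∧ ⋃₀ t ⊆ V := by
    intro t
    by_cases h : ∃ U ∈ 𝒰, ⋃₀ t ⊆ U
    · obtain ⟨U, h1, h2⟩ := h
      exact ⟨U, fun _ => ⟨h1, h2⟩⟩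
    · exact ⟨∅, fun h' => absurd h' h⟩
  choose V hV using this
  refine ⟨V '' {t | t ∈ T ∧ ∃ U ∈ 𝒰, ⋃₀ t ⊆ U}, ?_, ?_, ?_⟩
  · rintro _ ⟨t, ⟨_, ht⟩, rfl⟩
    exact (hV t ht).1
  · exact (hT.mono fun t ht => ht.1).image V
  · intro F
    obtain ⟨U, hU, hFU⟩ := hω F
    have : ∀ x : X, ∃ b, x ∈ F → b ∈ B ∧ x ∈ b ∧ b ⊆ U := by
      intro x
      by_cases hx : x ∈ F
      · obtain ⟨b, h1, h2, h3⟩ := hB.exists_subset_of_mem_open (hFU hx) (ho U hU)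
        exact ⟨b, fun _ => ⟨h1, h2, h3⟩⟩
      · exact ⟨∅, fun h => absurd h hx⟩
    choose b hb using this
    let t : Set (Set X) := ((F.image b : Finset (Set X)) : Set (Set X))
    have ht1 : t ∈ T := by
      refine ⟨Finset.finite_toSet _, ?_⟩
      intro s hs
      obtain ⟨x, hx, rfl⟩ := Finset.mem_image.mp (Finset.mem_coe.mp hs)
      exact (hb x hx).1
    have ht2 : ⋃₀ t ⊆ U := by
      refine Set.sUnion_subset fun s hs => ?_
      obtain ⟨x, hx, rfl⟩ := Finset.mem_image.mp (Finset.mem_coe.mp hs)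
      exact (hb x hx).2.2
    refine ⟨V t, ⟨t, ⟨ht1, U, hU, ht2⟩, rfl⟩, ?_⟩
    intro x hx
    exact (hV t ⟨U, hU, ht2⟩).2 ⟨b x, Finset.mem_coe.mpr (Finset.mem_image.mpr ⟨x, hx, rfl⟩),
      (hb x hx).2.1⟩

/-- The continuum hypothesis gives a subgroup of `ℤ^ℕ` of size continuum satisfying
`S₁(B_Ω, B_Γ)` and `S₁(Ω, Γ)`. -/
theorem result (CH : (𝔠 : Cardinal.{0}) = ℵ₁) :
    ∃ G : AddSubgroup (ℕ → ℤ), #G = 𝔠 ∧ S1 (BOmega G) (BGamma G) ∧ S1 (Omega G) (Gamma G) := by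
  classical
  obtain ⟨G, hG, hmain⟩ := Pool.Agent.V11258.BG.main CH
  -- the core statement
  have core : ∀ 𝒰 : ℕ → Set (Set G), (∀ n, (𝒰 n).Countable) →
      (∀ n, ∀ U ∈ 𝒰 n, @MeasurableSet G (borel G) U) → (∀ n, Set.univ ∉ 𝒰 n) →
      (∀ n, ∀ F : Finset G, ∃ U ∈ 𝒰 n, (F : Set G) ⊆ U) →
      ∃ U : ℕ → Set G, (∀ n, U n ∈ 𝒰 n) ∧ IsGammaCover (Set.range U) := by
    intro 𝒰 hc hm hu hω
    have hne : ∀ n, (𝒰 n).Nonempty := fun n => by
      obtain ⟨U, hU, _⟩ := hω n ∅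
      exact ⟨U, hU⟩
    choose V hV using fun n => (hc n).exists_eq_range (hne n)
    have hVm : ∀ n k, MeasurableSet (V n k) := by
      intro n k
      have := hm n (V n k) (by rw [hV]; exact ⟨k, rfl⟩)
      rw [← (inferInstance : BorelSpace G).measurable_eq] at this
      exact this
    choose W hW1 hW2 using fun n k => (hVm n k)
    obtain ⟨f, hf⟩ := hmain W hW1 (by
      intro n F hF
      obtain ⟨U, hU, hFU⟩ := hω n (F.attach.image fun x : F => (⟨x.1, hF (Finset.mem_coe.mpr x.2)⟩ : G))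
      rw [hV] at hU
      obtain ⟨k, rfl⟩ := hU
      refine ⟨k, fun x hx => ?_⟩
      have : (⟨x, hF hx⟩ : G) ∈ V n k := hFU (by
        rw [Finset.mem_coe, Finset.mem_image]
        exact ⟨⟨x, hx⟩, Finset.mem_attach _ _, rfl⟩)
      rw [← hW2] at this
      exact this)
    have hmem : ∀ n, V n (f n) ∈ 𝒰 n := fun n => by rw [hV]; exact ⟨f n, rfl⟩
    refine ⟨fun n => V n (f n), hmem, gamma_of_eventually _ ?_ ?_⟩
    · intro n h
      exact hu n (h ▸ hmem n)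
    · intro x
      filter_upwards [hf x.1 x.2] with n hn
      rw [← hW2]
      exact hn
  refine ⟨G, hG, ?_, ?_⟩
  · intro 𝒰 h𝒰
    obtain ⟨U, h1, h2⟩ := core 𝒰 (fun n => (h𝒰 n).1) (fun n => (h𝒰 n).2.1)
      (fun n => (h𝒰 n).2.2.1) (fun n => (h𝒰 n).2.2.2)
    refine ⟨U, h1, Set.countable_range U, ?_, h2⟩
    rintro _ ⟨n, rfl⟩
    exact (h𝒰 n).2.1 _ (h1 n)
  · intro 𝒰 h𝒰
    have hsc : SecondCountableTopology (G : Set (ℕ → ℤ)) :=
      TopologicalSpace.Subtype.secondCountableTopology _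
    choose 𝒱 hs hc hω using fun n => @countable_subcover G _ hsc (𝒰 n) (h𝒰 n).1 (h𝒰 n).2.2
    obtain ⟨U, h1, h2⟩ := core 𝒱 hc
      (fun n U hU => MeasurableSpace.measurableSet_generateFrom ((h𝒰 n).1 U (hs n hU)))
      (fun n h => (h𝒰 n).2.1 (hs n h)) hω
    refine ⟨U, fun n => hs n (h1 n), ?_, h2⟩
    rintro _ ⟨n, rfl⟩
    exact (h𝒰 n).1 _ (hs n (h1 n))

end Pool.Agent.Results.MP_cc0654_lc.BorelGammaGroup
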